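import Pool.Agent.Lib.Pd0305a.Row

/-! Disproof of the conjectured description of the numbers `N` such that an equilateral triangle
tiles into `N` copies of a triangle with sides `a, b, c` and a 120 degree angle. -/

namespace Pool.Agent.Results.MP_d0305a_co.Disproof

open Set Pool.Agent.Lib.Pd0305a

/-- `S` is a closed triangle in the Euclidean plane `ℂ` with side lengths `a, b, c` -/
def IsTriangle (a b c : ℝ) (S : Set ℂ) : Prop :=
  ∃ A B C : ℂ, dist B C = a ∧ dist C A = b ∧ dist A B = c ∧ S = convexHull ℝ {A, B, C}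

/-- `T` is the union of `N` triangles with side lengths `a, b, c` whose interiors are pairwise
disjoint -/
def TilesInto (T : Set ℂ) (N : ℕ) (a b c : ℝ) : Prop :=
  ∃ t : Fin N → Set ℂ, (∀ i, IsTriangle a b c (t i)) ∧ (⋃ i, t i) = T ∧
    ∀ i j, i ≠ j → Disjoint (interior (t i)) (interior (t j))

/-- the set of all `N` such that some equilateral triangle tiles into `N` triangles with side
lengths `a, b, c` -/
def Attainable (a b c : ℕ) : Set ℕ :=
  {N | ∃ X : ℝ, 0 < X ∧ ∃ T, IsTriangle X X X T ∧ TilesInto T N a b c}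

/-- the number `M(a,b,c)` of the conjecture -/
noncomputable def M (a b c : ℕ) : ℤ := 3 * ⌈((c : ℝ) ^ 2 - a - b) / (a * b)⌉

/-- the triples of the conjecture: pairwise coprime positive integers, the angle opposite to `c`
is `2π/3`, and the angle opposite to `a` is not a rational multiple of `π` -/
def Admissible (a b c : ℕ) : Prop :=
  0 < a ∧ 0 < b ∧ 0 < c ∧ Nat.Coprime a b ∧ Nat.Coprime a c ∧ Nat.Coprime b c ∧
  c ^ 2 = a ^ 2 + b ^ 2 + a * b ∧
  ∀ A B C : ℂ, dist B C = a → dist C A = b → dist A B = c →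
    EuclideanGeometry.angle A C B = 2 * Real.pi / 3 ∧
    ¬ ∃ r : ℚ, EuclideanGeometry.angle B A C = r * Real.pi

/-- the sixth root of unity -/
noncomputable def om : ℂ := ⟨1 / 2, √3 / 2⟩

theorem norm_sq_om (x y : ℝ) : ‖(x : ℂ) + y * om‖ ^ 2 = q (x, y) := by
  rw [← Complex.normSq_eq_norm_sq, Complex.normSq_apply]
  simp only [om, Complex.add_re, Complex.ofReal_re, Complex.mul_re, Complex.ofReal_im,
    zero_mul, sub_zero, Complex.add_im, Complex.mul_im, zero_add, add_zero, q]
  have h3 : √3 * √3 = 3 := Real.mul_self_sqrt (by norm_num)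
  linear_combination (y ^ 2 / 4) * h3

/-- the linear part of the coordinate map -/
noncomputable def L (w : ℂ) : (ℝ × ℝ) →ₗ[ℝ] ℂ where
  toFun z := w * ((z.1 : ℂ) + z.2 * om)
  map_add' x y := by simp only [Prod.fst_add, Prod.snd_add]; push_cast; ring
  map_smul' r x := by
    simp only [Prod.smul_fst, Prod.smul_snd, smul_eq_mul, RingHom.id_apply, Complex.real_smul]
    push_cast; ring

theorem L_apply (w : ℂ) (z : ℝ × ℝ) : L w z = w * ((z.1 : ℂ) + z.2 * om) := rfl

theorem norm_L (w : ℂ) (hw : ‖w‖ = 1) (z : ℝ × ℝ) : ‖L w z‖ ^ 2 = q z := by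
  rw [L_apply, norm_mul, hw, one_mul, norm_sq_om]

theorem q_pos {z : ℝ × ℝ} (h : q z = 0) : z = 0 := by
  obtain ⟨x, y⟩ := z
  simp only [q] at h
  have h1 : (x + y / 2) ^ 2 + 3 / 4 * y ^ 2 = 0 := by linarith
  have h2 : y ^ 2 = 0 := by nlinarith [sq_nonneg (x + y / 2), sq_nonneg y]
  have h3 : y = 0 := by simpa using h2
  subst h3
  have h4 : x ^ 2 = 0 := by linarith
  have h5 : x = 0 := by simpa using h4
  rw [h5]; rfl

theorem L_inj (w : ℂ) (hw : ‖w‖ = 1) : Function.Injective (L w) := by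
  intro x y hxy
  have h1 : L w (x - y) = 0 := by rw [map_sub, hxy, sub_self]
  have h2 := norm_L w hw (x - y)
  rw [h1, norm_zero] at h2
  have h3 := q_pos (z := x - y) (by linarith)
  exact sub_eq_zero.1 h3

theorem dist_L (A w : ℂ) (hw : ‖w‖ = 1) (x y : ℝ × ℝ) (a : ℝ) (ha : 0 ≤ a)
    (h : q (x - y) = a ^ 2) : dist (A + L w x) (A + L w y) = a := by
  rw [dist_add_left, dist_eq_norm, ← map_sub]
  have h1 := norm_L w hw (x - y)
  rw [h] at h1
  exact (sq_eq_sq₀ (norm_nonneg _) ha).1 h1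

theorem image_hull (A w : ℂ) (x y z : ℝ × ℝ) :
    (fun p => A + L w p) '' convexHull ℝ {x, y, z} =
      convexHull ℝ {A + L w x, A + L w y, A + L w z} := by
  have := AffineMap.image_convexHull
      ((AffineMap.const ℝ (ℝ × ℝ) A) + (L w).toAffineMap) {x, y, z}
  have he : (⇑((AffineMap.const ℝ (ℝ × ℝ) A) + (L w).toAffineMap) : ℝ × ℝ → ℂ) =
      fun x => A + L w x := by
    ext x; simp
  rw [he] at this
  rw [this, image_insert_eq, image_insert_eq, image_singleton]

theorem tiles_of_Tl {a b c : ℝ} (ha : 0 ≤ a) (hb : 0 ≤ b) (hc : 0 ≤ c) {S : Set (ℝ × ℝ)} {N : ℕ}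
    (h : Tl a b c S N) (A w : ℂ) (hw : ‖w‖ = 1) :
    TilesInto ((fun p => A + L w p) '' S) N a b c := by
  obtain ⟨t, h1, h2, h3⟩ := h
  refine ⟨fun i => (fun x => A + L w x) '' t i, ?_, ?_, ?_⟩
  · intro i
    obtain ⟨x, y, z, g1, g2, g3, g4⟩ := h1 i
    refine ⟨A + L w x, A + L w y, A + L w z, dist_L A w hw _ _ _ ha g1,
      dist_L A w hw _ _ _ hb g2, dist_L A w hw _ _ _ hc g3, ?_⟩
    rw [← image_hull, ← g4]
  · rw [← h2, image_iUnion]
  · intro i j hij
    have hcont : Continuous (fun x => A + L w x) :=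
      continuous_const.add (L w).continuous_of_finiteDimensional
    have hinj : Function.Injective (fun x => A + L w x) := fun x y hxy =>
      L_inj w hw (add_left_cancel hxy)
    have key : ∀ k, (fun x => A + L w x) ⁻¹' interior ((fun x => A + L w x) '' t k) ⊆
        interior (t k) := by
      intro k
      apply interior_maximal
      · intro x hx
        obtain ⟨y, hy, hxy⟩ := interior_subset hx
        rwa [← hinj hxy]
      · exact isOpen_interior.preimage hcont
    rw [Set.disjoint_left]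
    intro z hz1 hz2
    obtain ⟨x, hx, rfl⟩ := interior_subset hz1
    exact Set.disjoint_left.1 (h3 i j hij) (key i hz1) (key j hz2)

/-- the standard triangle in coordinates -/
theorem std_triangle (X : ℝ) (hX : 0 < X) (A w : ℂ) :
    (fun p => A + L w p) '' {z : ℝ × ℝ | 0 ≤ z.1 ∧ 0 ≤ z.2 ∧ z.1 + z.2 ≤ X} =
      convexHull ℝ {A, A + (X : ℂ) * w, A + (X : ℂ) * w * om} := by
  rw [hull_eq]
  ext z
  simp only [mem_image, Set.mem_ofPred_eq, L_apply, Complex.real_smul]
  constructor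
  · rintro ⟨x, ⟨h1, h2, h3⟩, rfl⟩
    refine ⟨x.1 / X, x.2 / X, by positivity, by positivity, ?_, ?_⟩
    · rw [← add_div, div_le_one hX]; exact h3
    · have : (X : ℂ) ≠ 0 := by exact_mod_cast hX.ne'
      push_cast
      field_simp
      ring
  · rintro ⟨s, t, h1, h2, h3, rfl⟩
    refine ⟨(X * s, X * t), ⟨by positivity, by positivity, ?_⟩, ?_⟩
    · simp only
      nlinarith
    · push_cast
      ring

/-- shape of an equilateral triangle -/
theorem equilateral_form {X : ℝ} (hX : 0 < X) {T : Set ℂ} (hT : IsTriangle X X X T) :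
    ∃ A w : ℂ, ‖w‖ = 1 ∧ T = convexHull ℝ {A, A + (X : ℂ) * w, A + (X : ℂ) * w * om} := by
  obtain ⟨A, B, C, h1, h2, h3, rfl⟩ := hT
  have hXc : (X : ℂ) ≠ 0 := by exact_mod_cast hX.ne'
  have hu : ‖B - A‖ = X := by rw [← h3, dist_comm, dist_eq_norm]
  have hv : ‖C - A‖ = X := by rw [← h2, dist_eq_norm]
  have huv : ‖(C - A) - (B - A)‖ = X := by
    rw [← h1, dist_comm, dist_eq_norm]; congr 1; ring
  have hune : B - A ≠ 0 := by
    intro h0; rw [h0, norm_zero] at hu; exact hX.ne hu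
  obtain ⟨r, hr⟩ : ∃ r, r = (C - A) / (B - A) := ⟨_, rfl⟩
  have hCr : C - A = (B - A) * r := by rw [hr]; field_simp
  have hr1 : ‖r‖ = 1 := by
    rw [hr, norm_div, hu, hv, div_self hX.ne']
  have hr2 : ‖r - 1‖ = 1 := by
    have : r - 1 = ((C - A) - (B - A)) / (B - A) := by rw [hr]; field_simp
    rw [this, norm_div, huv, hu, div_self hX.ne']
  have e1 : r.re ^ 2 + r.im ^ 2 = 1 := by
    have : Complex.normSq r = 1 := by rw [Complex.normSq_eq_norm_sq, hr1]; norm_num
    rw [Complex.normSq_apply] at this; linarith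
  have e2 : (r.re - 1) ^ 2 + r.im ^ 2 = 1 := by
    have : Complex.normSq (r - 1) = 1 := by rw [Complex.normSq_eq_norm_sq, hr2]; norm_num
    rw [Complex.normSq_apply] at this
    simp only [Complex.sub_re, Complex.one_re, Complex.sub_im, Complex.one_im, sub_zero] at this
    linarith
  have e3 : r.re = 1 / 2 := by linarith
  have h33 : √3 * √3 = 3 := Real.mul_self_sqrt (by norm_num)
  have e4 : (r.im - √3 / 2) * (r.im + √3 / 2) = 0 := by
    rw [e3] at e1
    linear_combination e1 - h33 / 4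
  rcases mul_eq_zero.1 e4 with e5 | e5
  · -- r = om
    have hrom : r = om := by
      apply Complex.ext
      · rw [e3]; rfl
      · change r.im = √3 / 2; linarith
    refine ⟨A, (B - A) / X, ?_, ?_⟩
    · rw [norm_div, hu, Complex.norm_real, Real.norm_eq_abs, abs_of_pos hX, div_self hX.ne']
    · have g1 : A + (X : ℂ) * ((B - A) / X) = B := by field_simp; ring
      have g2 : A + (X : ℂ) * ((B - A) / X) * om = C := by
        rw [← hrom]
        have : (X : ℂ) * ((B - A) / X) = B - A := by field_simp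
        rw [this, ← hCr]; ring
      rw [g1, g2]
  · -- r = conj om
    have hrom : r * om = 1 := by
      apply Complex.ext
      · rw [Complex.mul_re, e3]
        change 1 / 2 * (1 / 2) - r.im * (√3 / 2) = 1
        have : r.im = -(√3 / 2) := by linarith
        rw [this]; linear_combination h33 / 4
      · rw [Complex.mul_im, e3]
        change 1 / 2 * (√3 / 2) + r.im * (1 / 2) = 0
        have : r.im = -(√3 / 2) := by linarith
        rw [this]; ring
    refine ⟨A, (C - A) / X, ?_, ?_⟩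
    · rw [norm_div, hv, Complex.norm_real, Real.norm_eq_abs, abs_of_pos hX, div_self hX.ne']
    · have g1 : A + (X : ℂ) * ((C - A) / X) = C := by field_simp; ring
      have g2 : A + (X : ℂ) * ((C - A) / X) * om = B := by
        have : (X : ℂ) * ((C - A) / X) = C - A := by field_simp
        rw [this, hCr, mul_assoc, hrom]; ring
      rw [g1, g2]
      congr 1
      ext x
      simp only [mem_insert_iff, mem_singleton_iff]
      tauto

theorem tiles_equilateral {a b c : ℕ} (ha : 0 < a) (hb : 0 < b) (hc : 0 < c)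
    (h : c ^ 2 = a ^ 2 + b ^ 2 + a * b) {k s t u : ℕ}
    (hk : k * (a * b) = a ^ 2 + b ^ 2 + s * a + t * b + u * c)
    (m : ℕ) (hm : 3 * k ≤ m) (T : Set ℂ)
    (hT : IsTriangle (m * a * b) (m * a * b) (m * a * b) T) :
    TilesInto T (m ^ 2 * a * b) a b c := by
  have hk1 : 1 ≤ k := by
    rcases Nat.eq_zero_or_pos k with h0 | h0
    · subst h0
      have : 0 < a ^ 2 := by positivity
      omega
    · exact h0
  have hm0 : (0 : ℝ) < m := by exact_mod_cast (by omega : 0 < m)
  have ha' : (0 : ℝ) < a := by exact_mod_cast ha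
  have hb' : (0 : ℝ) < b := by exact_mod_cast hb
  have hX : (0 : ℝ) < m * a * b := by positivity
  obtain ⟨A, w, hw, rfl⟩ := equilateral_form hX hT
  rw [← std_triangle _ hX A w]
  have := tiles_of_Tl (Nat.cast_nonneg a) (Nat.cast_nonneg b) (Nat.cast_nonneg c)
    (triangle ha hb hc h hk m hm) A w hw
  convert this using 1
  · simp only [mul_assoc]
  · ring

theorem admissible_of {a b c : ℕ} (ha : 0 < a) (hb : 0 < b) (hc : 0 < c) (hab : Nat.Coprime a b)
    (h : c ^ 2 = a ^ 2 + b ^ 2 + a * b) : Admissible a b c := by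
  have hR : (c : ℝ) ^ 2 = a ^ 2 + b ^ 2 + a * b := by exact_mod_cast h
  have ha' : (0 : ℝ) < a := by exact_mod_cast ha
  have hb' : (0 : ℝ) < b := by exact_mod_cast hb
  have hc' : (0 : ℝ) < c := by exact_mod_cast hc
  have hac : Nat.Coprime a c := by
    rw [Nat.coprime_iff_gcd_eq_one]
    by_contra hne
    obtain ⟨p, hp, hpd⟩ := Nat.exists_prime_and_dvd hne
    have hpa : p ∣ a := hpd.trans (Nat.gcd_dvd_left _ _)
    have hpc : p ∣ c := hpd.trans (Nat.gcd_dvd_right _ _)
    have h1 : p ∣ b ^ 2 := by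
      have e : c ^ 2 = a * (a + b) + b ^ 2 := by rw [h]; ring
      have h2 : p ∣ a * (a + b) + b ^ 2 := by
        rw [← e]; exact dvd_pow hpc (by norm_num)
      exact (Nat.dvd_add_right (hpa.mul_right _)).1 h2
    have h3 := hp.dvd_of_dvd_pow h1
    have h4 : p ∣ Nat.gcd a b := Nat.dvd_gcd hpa h3
    rw [Nat.coprime_iff_gcd_eq_one.1 hab] at h4
    exact hp.one_lt.ne' (Nat.dvd_one.1 h4)
  have hbc : Nat.Coprime b c := by
    rw [Nat.coprime_iff_gcd_eq_one]
    by_contra hne
    obtain ⟨p, hp, hpd⟩ := Nat.exists_prime_and_dvd hne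
    have hpb : p ∣ b := hpd.trans (Nat.gcd_dvd_left _ _)
    have hpc : p ∣ c := hpd.trans (Nat.gcd_dvd_right _ _)
    have h1 : p ∣ a ^ 2 := by
      have e : c ^ 2 = b * (a + b) + a ^ 2 := by rw [h]; ring
      have h2 : p ∣ b * (a + b) + a ^ 2 := by
        rw [← e]; exact dvd_pow hpc (by norm_num)
      exact (Nat.dvd_add_right (hpb.mul_right _)).1 h2
    have h3 := hp.dvd_of_dvd_pow h1
    have h4 : p ∣ Nat.gcd a b := Nat.dvd_gcd h3 hpb
    rw [Nat.coprime_iff_gcd_eq_one.1 hab] at h4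
    exact hp.one_lt.ne' (Nat.dvd_one.1 h4)
  refine ⟨ha, hb, hc, hab, hac, hbc, h, ?_⟩
  intro A B C h1 h2 h3
  constructor
  · have hl := EuclideanGeometry.law_cos A C B
    rw [h3, dist_comm A C, h2, h1] at hl
    have hcos : Real.cos (EuclideanGeometry.angle A C B) = -1 / 2 := by
      have : (2 * (b : ℝ) * a) ≠ 0 := by positivity
      have e : (2 * (b : ℝ) * a) * Real.cos (EuclideanGeometry.angle A C B) =
          (2 * (b : ℝ) * a) * (-1 / 2) := by nlinarith
      exact mul_left_cancel₀ this e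
    have hcos2 : Real.cos (2 * Real.pi / 3) = -1 / 2 := by
      have : 2 * Real.pi / 3 = Real.pi - Real.pi / 3 := by ring
      rw [this, Real.cos_pi_sub, Real.cos_pi_div_three]; norm_num
    apply Real.injOn_cos ⟨EuclideanGeometry.angle_nonneg _ _ _, EuclideanGeometry.angle_le_pi _ _ _⟩
      ⟨by positivity, by linarith [Real.pi_pos]⟩
    rw [hcos, hcos2]
  · intro hr
    have hl := EuclideanGeometry.law_cos B A C
    rw [h1, dist_comm B A, h3, h2] at hl
    have hcos : Real.cos (EuclideanGeometry.angle B A C) = (2 * b + a) / (2 * c) := by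
      have h0 : (2 * (c : ℝ) * b) ≠ 0 := by positivity
      have e : (2 * (c : ℝ) * b) * Real.cos (EuclideanGeometry.angle B A C) =
          (2 * (c : ℝ) * b) * ((2 * b + a) / (2 * c)) := by
        field_simp
        nlinarith
      exact mul_left_cancel₀ h0 e
    have hq : ∃ r : ℚ, Real.cos (EuclideanGeometry.angle B A C) = r :=
      ⟨(2 * b + a) / (2 * c), by rw [hcos]; push_cast; rfl⟩
    have hn := niven hr hq
    rw [hcos] at hn
    simp only [mem_insert_iff, mem_singleton_iff] at hn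
    have hpos : (0 : ℝ) < (2 * b + a) / (2 * c) := by positivity
    rcases hn with e | e | e | e | e
    · linarith
    · linarith
    · linarith
    · rw [div_eq_iff (by positivity)] at e
      nlinarith
    · rw [div_eq_iff (by positivity)] at e
      have e2 : (2 * (b : ℝ) + a) ^ 2 = 4 * c ^ 2 := by rw [e]; ring
      nlinarith [mul_pos ha' ha']

theorem result (p : ℕ) (hp : 1 ≤ p) (a b c : ℕ) (ha : a = 4 * p + 1)
    (hb : b = 4 * p * (3 * p + 1)) (hc : c = 12 * p ^ 2 + 6 * p + 1) :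
    Admissible a b c ∧
    (∀ m : ℕ, M a b c - 3 ≤ m → ∀ T : Set ℂ,
      IsTriangle (m * a * b) (m * a * b) (m * a * b) T → TilesInto T (m ^ 2 * a * b) a b c) ∧
    Attainable a b c ≠ {N : ℕ | ∃ m : ℤ, M a b c ≤ m ∧ (N : ℤ) = m ^ 2 * a * b} := by
  obtain ⟨n, rfl⟩ : ∃ n, p = n + 1 := ⟨p - 1, by omega⟩
  have ha0 : 0 < a := by rw [ha]; positivity
  have hb0 : 0 < b := by rw [hb]; positivity
  have hc0 : 0 < c := by rw [hc]; positivity
  have h : c ^ 2 = a ^ 2 + b ^ 2 + a * b := by rw [ha, hb, hc]; ring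
  have hab : Nat.Coprime a b := by
    rw [ha, hb]
    apply Nat.Coprime.mul_right
    · rw [Nat.coprime_iff_gcd_eq_one]; simp
    · have : IsCoprime ((4 * (n + 1) + 1 : ℕ) : ℤ) ((3 * (n + 1) + 1 : ℕ) : ℤ) :=
        ⟨-3, 4, by push_cast; ring⟩
      exact Nat.isCoprime_iff_coprime.1 this
  have hk : (3 * (n + 1) + 1) * (a * b) =
      a ^ 2 + b ^ 2 + (6 * n ^ 2 + 11 * n + 4) * a + 0 * b + (n + 1) * c := by
    rw [ha, hb, hc]; ring
  have hM : M a b c = 9 * (n + 1) + 6 := by
    have haR : (a : ℝ) = 4 * (n + 1) + 1 := by rw [ha]; push_cast; ring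
    have hbR : (b : ℝ) = 4 * (n + 1) * (3 * (n + 1) + 1) := by rw [hb]; push_cast; ring
    have hcR : (c : ℝ) = 12 * (n + 1) ^ 2 + 6 * (n + 1) + 1 := by rw [hc]; push_cast; ring
    have hn : (0 : ℝ) ≤ n := Nat.cast_nonneg n
    have hceil : ⌈((c : ℝ) ^ 2 - a - b) / (a * b)⌉ = 3 * (n + 1) + 2 := by
      rw [Int.ceil_eq_iff]
      have hpos : (0 : ℝ) < a * b := by
        have : (0 : ℝ) < a := by exact_mod_cast ha0
        have : (0 : ℝ) < b := by exact_mod_cast hb0
        positivity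
      rw [lt_div_iff₀ hpos, div_le_iff₀ hpos, haR, hbR, hcR]
      push_cast
      constructor
      · have : 0 < 12 * ((n : ℝ) + 1) ^ 3 + 8 * ((n : ℝ) + 1) ^ 2 := by positivity
        nlinarith
      · have : 0 ≤ (6 * (n : ℝ) ^ 2 + 11 * n + 4) * (4 * (n + 1) + 1) +
          (n + 1) * (12 * (n + 1) ^ 2 + 6 * (n + 1) + 1) + (4 * (n + 1) + 1) +
          4 * (n + 1) * (3 * (n + 1) + 1) := by positivity
        nlinarith
    rw [M, hceil]; ring
  have htile : ∀ m : ℕ, M a b c - 3 ≤ m → ∀ T : Set ℂ,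
      IsTriangle (m * a * b) (m * a * b) (m * a * b) T →
      TilesInto T (m ^ 2 * a * b) a b c := by
    intro m hm T hT
    exact tiles_equilateral ha0 hb0 hc0 h hk m (by rw [hM] at hm; omega) T hT
  refine ⟨admissible_of ha0 hb0 hc0 hab h, htile, ?_⟩
  intro heq
  have haR : (0 : ℝ) < a := by exact_mod_cast ha0
  have hbR : (0 : ℝ) < b := by exact_mod_cast hb0
  have hmem : (9 * (n + 1) + 3) ^ 2 * a * b ∈ Attainable a b c := by
    have hX : (0 : ℝ) < ((9 * (n + 1) + 3 : ℕ) : ℝ) * a * b := by positivity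
    obtain ⟨X, hXd⟩ : ∃ X : ℝ, X = ((9 * (n + 1) + 3 : ℕ) : ℝ) * a * b := ⟨_, rfl⟩
    rw [← hXd] at hX
    have hT : IsTriangle X X X (convexHull ℝ {0 + L 1 (0, 0), 0 + L 1 (X, 0), 0 + L 1 (0, X)}) :=
      ⟨_, _, _, dist_L 0 1 (by simp) _ _ _ hX.le (by simp [q]; ring),
        dist_L 0 1 (by simp) _ _ _ hX.le (by simp [q]),
        dist_L 0 1 (by simp) _ _ _ hX.le (by simp [q]), rfl⟩
    refine ⟨X, hX, _, hT, ?_⟩
    subst hXd
    exact htile (9 * (n + 1) + 3) (by rw [hM]; push_cast; linarith) _ hT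
  rw [heq] at hmem
  obtain ⟨m, hm1, hm2⟩ := hmem
  rw [hM] at hm1
  have ha1 : (0 : ℤ) < a := by exact_mod_cast ha0
  have hb1 : (0 : ℤ) < b := by exact_mod_cast hb0
  push_cast at hm2
  have hn : (0 : ℤ) ≤ n := Int.natCast_nonneg n
  have h1 : (9 * ((n : ℤ) + 1) + 3) ^ 2 = m ^ 2 := by
    have : (9 * ((n : ℤ) + 1) + 3) ^ 2 * (a * b) = m ^ 2 * (a * b) := by linarith
    exact mul_right_cancel₀ (mul_pos ha1 hb1).ne' this
  have h2 : (9 * ((n : ℤ) + 1) + 3) ^ 2 < m ^ 2 := by
    apply pow_lt_pow_left₀ _ _ (by norm_num)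
    · linarith
    · linarith
  linarith

end Pool.Agent.Results.MP_d0305a_co.Disproof
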